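import Pool.Agent.K1H54.GC.Stm
import Pool.Agent.Y293.SF.SQF

/-! # Squarefree integers in an interval -/

set_option autoImplicit false

open Finset Filter Topology

namespace Pool.Agent.K1H96.GC

open Pool.Agent.K1H54.GC Pool.Agent.Y293.SF

/-- the difference of the terms of the two series -/
noncomputable def tm (n d : ℕ) : ℝ := mu d * ((n / d ^ 2 : ℕ) : ℝ) - n * (mu d * (1 / (d : ℝ) ^ 2))

theorem tm_zero (n : ℕ) : tm n 0 = 0 := by simp [tm, mu_zero]

theorem tm_eq (n d : ℕ) : tm n d = mu d * (((n / d ^ 2 : ℕ) : ℝ) - (n : ℝ) / ((d ^ 2 : ℕ) : ℝ)) := by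
  unfold tm
  push_cast
  ring

theorem fl_le (n m : ℕ) (hm : 0 < m) :
    |((n / m : ℕ) : ℝ) - (n : ℝ) / (m : ℝ)| ≤ 1 := by
  have h1 : ((n / m : ℕ) : ℝ) ≤ (n : ℝ) / (m : ℝ) := Nat.cast_div_le
  have h2 : (n : ℝ) / (m : ℝ) < ((n / m : ℕ) : ℝ) + 1 := by
    rw [div_lt_iff₀ (by exact_mod_cast hm)]
    have := Nat.lt_mul_div_succ n hm
    have h3 : (n : ℝ) < (m : ℝ) * (((n / m : ℕ) : ℝ) + 1) := by exact_mod_cast this
    linarith
  rw [abs_le]
  constructor <;> linarith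

theorem tm_le_one (n d : ℕ) : |tm n d| ≤ 1 := by
  rcases Nat.eq_zero_or_pos d with h | h
  · rw [h, tm_zero, abs_zero]
    exact zero_le_one
  · rw [tm_eq, abs_mul]
    exact mul_le_one₀ (abs_mu_le d) (abs_nonneg _) (fl_le n _ (pow_pos h 2))

theorem tm_tail (n d : ℕ) (h : Nat.sqrt n < d) : |tm n d| ≤ n * ((d : ℝ) ^ 2)⁻¹ := by
  have h1 : n < d ^ 2 := by
    have := Nat.lt_succ_sqrt n
    have h2 : n.sqrt.succ * n.sqrt.succ ≤ d ^ 2 := by
      rw [sq]
      exact Nat.mul_le_mul h h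
    omega
  rw [tm_eq, Nat.div_eq_of_lt h1, abs_mul]
  have h3 : |(((0 : ℕ) : ℝ)) - (n : ℝ) / ((d ^ 2 : ℕ) : ℝ)| = n * ((d : ℝ) ^ 2)⁻¹ := by
    rw [Nat.cast_zero, zero_sub, abs_neg, abs_of_nonneg (by positivity)]
    push_cast
    rw [div_eq_mul_inv]
  rw [h3]
  exact mul_le_of_le_one_left (by positivity) (abs_mu_le d)

theorem partial_le (n N : ℕ) : ∑ d ∈ range N, |tm n d| ≤ 3 * √(n : ℝ) := by
  obtain ⟨D, hD⟩ : ∃ D, D = Nat.sqrt n := ⟨_, rfl⟩
  have h1 : ∑ d ∈ range N, |tm n d| ≤ ∑ d ∈ range (D + 1) ∪ Ioo D N, |tm n d| := by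
    apply Finset.sum_le_sum_of_subset_of_nonneg
    · intro d hd
      rw [mem_range] at hd
      rw [mem_union, mem_range, mem_Ioo]
      omega
    · intro _ _ _
      exact abs_nonneg _
  have h2 : ∑ d ∈ range (D + 1) ∪ Ioo D N, |tm n d| =
      ∑ d ∈ range (D + 1), |tm n d| + ∑ d ∈ Ioo D N, |tm n d| := by
    apply Finset.sum_union
    rw [Finset.disjoint_left]
    intro d hd hd'
    rw [mem_range] at hd
    rw [mem_Ioo] at hd'
    omega
  have h3 : ∑ d ∈ range (D + 1), |tm n d| ≤ D := by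
    rw [Finset.sum_range_succ', tm_zero, abs_zero, add_zero]
    calc ∑ d ∈ range D, |tm n (d + 1)| ≤ ∑ _d ∈ range D, (1 : ℝ) :=
          Finset.sum_le_sum (fun d _ => tm_le_one n _)
      _ = D := by simp
  have h4 : ∑ d ∈ Ioo D N, |tm n d| ≤ n * (2 / ((D : ℝ) + 1)) := by
    calc ∑ d ∈ Ioo D N, |tm n d| ≤ ∑ d ∈ Ioo D N, n * ((d : ℝ) ^ 2)⁻¹ := by
          apply Finset.sum_le_sum
          intro d hd
          rw [mem_Ioo] at hd
          exact tm_tail n d (by omega)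
      _ = n * ∑ d ∈ Ioo D N, ((d : ℝ) ^ 2)⁻¹ := by rw [Finset.mul_sum]
      _ ≤ _ := mul_le_mul_of_nonneg_left (sum_Ioo_inv_sq_le D N) (Nat.cast_nonneg n)
  have h5 : (D : ℝ) ≤ √(n : ℝ) := by
    rw [hD]
    exact Real.nat_sqrt_le_real_sqrt
  have h6 : √(n : ℝ) ≤ (D : ℝ) + 1 := by
    rw [hD]
    exact Real.real_sqrt_le_nat_sqrt_succ
  have h7 : (n : ℝ) * (2 / ((D : ℝ) + 1)) ≤ 2 * √(n : ℝ) := by
    have hp : (0 : ℝ) < (D : ℝ) + 1 := by positivity
    rw [← mul_div_assoc, div_le_iff₀ hp]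
    have h8 : (n : ℝ) = √(n : ℝ) * √(n : ℝ) := (Real.mul_self_sqrt (Nat.cast_nonneg n)).symm
    have h9 : √(n : ℝ) * √(n : ℝ) ≤ √(n : ℝ) * ((D : ℝ) + 1) :=
      mul_le_mul_of_nonneg_left h6 (Real.sqrt_nonneg _)
    linarith
  rw [h2] at h1
  linarith

open scoped Classical in
theorem cnt (n : ℕ) :
    |(((Finset.Icc 1 n).filter (fun m => Squarefree m)).card : ℝ) - 6 / Real.pi ^ 2 * n| ≤
      3 * √(n : ℝ) := by
  have hs : Summable (fun d : ℕ => mu d * ((n / d ^ 2 : ℕ) : ℝ)) := by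
    apply summable_of_ne_finset_zero (s := Finset.Icc 1 n)
    intro d hd
    rcases Nat.eq_zero_or_pos d with h | h
    · rw [h, mu_zero, zero_mul]
    · have h1 : n < d := by
        by_contra hc
        exact hd (Finset.mem_Icc.2 ⟨h, not_lt.1 hc⟩)
      have h2 : n / d ^ 2 = 0 := Nat.div_eq_of_lt (by nlinarith)
      rw [h2]
      simp
  have h1 := hs.hasSum
  rw [← count_eq n] at h1
  have h2 := moebius_hasSum.mul_left (n : ℝ)
  have h3 := (h1.sub h2).tendsto_sum_nat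
  have h4 : ∀ N : ℕ, |∑ d ∈ range N, (mu d * ((n / d ^ 2 : ℕ) : ℝ) -
      n * (mu d * (1 / (d : ℝ) ^ 2)))| ≤ 3 * √(n : ℝ) := by
    intro N
    refine (Finset.abs_sum_le_sum_abs _ _).trans ?_
    exact partial_le n N
  have h5 := le_of_tendsto' h3.abs h4
  rw [mul_comm (6 / Real.pi ^ 2) (n : ℝ)]
  exact h5

theorem t_SQF : S_SQF := by
  classical
  refine ⟨6, fun A B hAB => ?_⟩
  have e1 : ((Ioc A B).filter (fun n => Squarefree n)).card +
      ((Finset.Icc 1 A).filter (fun n => Squarefree n)).card =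
        ((Finset.Icc 1 B).filter (fun n => Squarefree n)).card := by
    rw [add_comm, ← Finset.card_union_of_disjoint, ← Finset.filter_union]
    · congr 2
      ext m
      simp only [mem_union, mem_Icc, mem_Ioc]
      omega
    · apply Finset.disjoint_filter_filter
      rw [Finset.disjoint_left]
      intro m hm hm'
      rw [mem_Icc] at hm
      rw [mem_Ioc] at hm'
      omega
  have hA := cnt A
  have hB := cnt B
  have e2 : (((Ioc A B).filter (fun n => Squarefree n)).card : ℝ) =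
      (((Finset.Icc 1 B).filter (fun n => Squarefree n)).card : ℝ) -
        (((Finset.Icc 1 A).filter (fun n => Squarefree n)).card : ℝ) := by
    rw [← e1]
    push_cast
    ring
  have hAB' : √(A : ℝ) ≤ √(B : ℝ) := Real.sqrt_le_sqrt (by exact_mod_cast hAB)
  have key : |(((Ioc A B).filter (fun n => Squarefree n)).card : ℝ) -
      6 / Real.pi ^ 2 * ((B : ℝ) - A)| ≤ 6 * √(B : ℝ) := by
    rw [e2]
    have hA' := abs_le.1 hA
    have hB' := abs_le.1 hB
    rw [abs_le, mul_sub]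
    constructor <;> linarith [hA'.1, hA'.2, hB'.1, hB'.2]
  convert key

end Pool.Agent.K1H96.GC
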